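import Pool.Agent.W300.FT.Stm

/-! Part SWAP of project FT. -/

set_option autoImplicit false

namespace Pool.Agent.W402.FT.Swap

open MeasureTheory ProbabilityTheory
open Pool.Agent.W300.FT

instance coin_prob : IsProbabilityMeasure coin := by
  constructor
  unfold coin
  rw [Measure.add_apply, Measure.smul_apply, Measure.smul_apply, measure_univ, measure_univ,
    smul_eq_mul, mul_one]
  exact ENNReal.add_halves 1

instance PC_prob (E : Type) : IsProbabilityMeasure (PC E) := by
  unfold PC
  infer_instance

lemma PC_pi (E : Type) (s : Finset E) (t : E → Set Bool) :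
    PC E (Set.pi s t) = ∏ i ∈ s, coin (t i) := by
  unfold PC
  exact Measure.infinitePi_pi _ (fun i _ => MeasurableSet.of_discrete)

lemma eq_PC (E : Type) (ν : Measure (E → Bool))
    (h : ∀ (s : Finset E) (t : E → Set Bool), ν (Set.pi s t) = ∏ i ∈ s, coin (t i)) :
    ν = PC E := by
  unfold PC
  exact Measure.eq_infinitePi _ (fun s t _ => h s t)

open Classical in
/-- mixture of bits -/
noncomputable def mixB {E : Type} (Θ : Set E) (w1 w2 : E → Bool) : E → Bool :=
  fun e => if e ∈ Θ then w1 e else w2 e

lemma measurable_mixB {E : Type} (Θ : Set E) :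
    Measurable (fun p : (E → Bool) × (E → Bool) => mixB Θ p.1 p.2) := by
  rw [measurable_pi_iff]
  intro e
  by_cases he : e ∈ Θ
  · have : (fun p : (E → Bool) × (E → Bool) => mixB Θ p.1 p.2 e) = fun p => p.1 e := by
      funext p
      simp [mixB, he]
    rw [this]
    exact (measurable_pi_apply e).comp measurable_fst
  · have : (fun p : (E → Bool) × (E → Bool) => mixB Θ p.1 p.2 e) = fun p => p.2 e := by
      funext p
      simp [mixB, he]
    rw [this]
    exact (measurable_pi_apply e).comp measurable_snd

lemma measurableSet_pi' {E : Type} (s : Finset E) (t : E → Set Bool) :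
    MeasurableSet (Set.pi (s : Set E) t) :=
  MeasurableSet.pi s.countable_toSet (fun _ _ => MeasurableSet.of_discrete)

lemma map_mixB {E : Type} (Θ : Set E) :
    ((PC E).prod (PC E)).map (fun p : (E → Bool) × (E → Bool) => mixB Θ p.1 p.2) = PC E := by
  classical
  apply eq_PC
  intro s t
  rw [Measure.map_apply (measurable_mixB Θ) (measurableSet_pi' s t)]
  have h : (fun p : (E → Bool) × (E → Bool) => mixB Θ p.1 p.2) ⁻¹' (Set.pi (s : Set E) t) =
      (Set.pi ((s.filter (fun e => e ∈ Θ) : Finset E) : Set E) t) ×ˢ
        (Set.pi ((s.filter (fun e => ¬ e ∈ Θ) : Finset E) : Set E) t) := by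
    ext p
    constructor
    · intro hp
      constructor
      · intro e he
        rw [Finset.mem_coe, Finset.mem_filter] at he
        have := hp e he.1
        simp only [mixB, if_pos he.2] at this
        exact this
      · intro e he
        rw [Finset.mem_coe, Finset.mem_filter] at he
        have := hp e he.1
        simp only [mixB, if_neg he.2] at this
        exact this
    · rintro ⟨h1, h2⟩ e he
      change mixB Θ p.1 p.2 e ∈ t e
      by_cases heΘ : e ∈ Θ
      · simp only [mixB, if_pos heΘ]
        exact h1 e (Finset.mem_coe.2 (Finset.mem_filter.2 ⟨he, heΘ⟩))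
      · simp only [mixB, if_neg heΘ]
        exact h2 e (Finset.mem_coe.2 (Finset.mem_filter.2 ⟨he, heΘ⟩))
  rw [h, Measure.prod_prod, PC_pi, PC_pi]
  exact Finset.prod_filter_mul_prod_filter_not s (fun e => e ∈ Θ) (fun e => coin (t e))

lemma measurable_relabel {E : Type} (σ : E → E) :
    Measurable (fun (w : E → Bool) e => w (σ e)) :=
  measurable_pi_iff.2 fun e => measurable_pi_apply (σ e)

lemma map_relabel {E : Type} (σ : E → E) (hσ : ∀ e, σ (σ e) = e) :
    (PC E).map (fun (w : E → Bool) e => w (σ e)) = PC E := by
  classical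
  have hinj : Function.Injective σ := Function.Involutive.injective hσ
  apply eq_PC
  intro s t
  rw [Measure.map_apply (measurable_relabel σ) (measurableSet_pi' s t)]
  have h : (fun (w : E → Bool) e => w (σ e)) ⁻¹' (Set.pi (s : Set E) t) =
      Set.pi ((s.image σ : Finset E) : Set E) (fun e => t (σ e)) := by
    ext w
    constructor
    · intro hw e he
      rw [Finset.mem_coe, Finset.mem_image] at he
      obtain ⟨e', he', rfl⟩ := he
      have := hw e' he'
      change w (σ e') ∈ t (σ (σ e'))
      rw [hσ]
      exact this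
    · intro hw e he
      have := hw (σ e) (Finset.mem_coe.2 (Finset.mem_image_of_mem σ he))
      change w (σ e) ∈ t e
      change w (σ e) ∈ t (σ (σ e)) at this
      rw [hσ] at this
      exact this
  rw [h, PC_pi, Finset.prod_image (fun a _ b _ hab => hinj hab)]
  refine Finset.prod_congr rfl fun e _ => ?_
  rw [hσ]

lemma measurable_skew {E : Type} [Countable E] (s : (E → Bool) → E → E)
    (hs : ∀ e e', MeasurableSet {w | s w e = e'}) :
    Measurable (fun p : (E → Bool) × (E → Bool) => (fun e => p.2 (s p.1 e) : E → Bool)) := by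
  rw [measurable_pi_iff]
  intro e
  apply measurable_to_bool
  have h : (fun p : (E → Bool) × (E → Bool) => p.2 (s p.1 e)) ⁻¹' {true} =
      ⋃ e' : E, {w | s w e = e'} ×ˢ {w : E → Bool | w e' = true} := by
    ext p
    simp
  rw [h]
  refine MeasurableSet.iUnion fun e' => (hs e e').prod ?_
  have h2 : Measurable (fun w : E → Bool => w e') := measurable_pi_apply e'
  exact h2 (MeasurableSet.of_discrete (s := ({true} : Set Bool)))

theorem swap : S_SWAP := by
  intro E Θ s hE hinv hdep hfix hmeas
  classical
  have hoff : ∀ w e, e ∉ Θ → s w e ∉ Θ := by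
    intro w e he h1
    have h2 := hfix w _ h1
    rw [hinv] at h2
    exact he (h2 ▸ h1)
  have hT : Measurable (fun (w : E → Bool) e => w (s w e)) := by
    have h1 := (measurable_skew s hmeas).comp
      (measurable_id.prodMk measurable_id : Measurable fun w : E → Bool => (w, w))
    exact h1
  have hmix : MeasurePreserving (fun p : (E → Bool) × (E → Bool) => mixB Θ p.1 p.2)
      ((PC E).prod (PC E)) (PC E) := ⟨measurable_mixB Θ, map_mixB Θ⟩
  have hskew : MeasurePreserving
      (fun p : (E → Bool) × (E → Bool) => (id p.1, (fun e => p.2 (s p.1 e) : E → Bool)))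
      ((PC E).prod (PC E)) ((PC E).prod (PC E)) := by
    refine MeasurePreserving.skew_product
      (g := fun (w1 w2 : E → Bool) => (fun e => w2 (s w1 e) : E → Bool))
      (MeasurePreserving.id (PC E)) (measurable_skew s hmeas) ?_
    exact Filter.Eventually.of_forall fun w => map_relabel (s w) (hinv w)
  have hcomp : (fun (w : E → Bool) e => w (s w e)) ∘
      (fun p : (E → Bool) × (E → Bool) => mixB Θ p.1 p.2) =
      (fun p : (E → Bool) × (E → Bool) => mixB Θ p.1 p.2) ∘
      (fun p : (E → Bool) × (E → Bool) => (id p.1, (fun e => p.2 (s p.1 e) : E → Bool))) := by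
    funext p e
    have hs : s (mixB Θ p.1 p.2) = s p.1 := by
      apply hdep
      intro e he
      simp [mixB, he]
    change mixB Θ p.1 p.2 (s (mixB Θ p.1 p.2) e) = mixB Θ p.1 (fun e => p.2 (s p.1 e)) e
    rw [hs]
    by_cases he : e ∈ Θ
    · rw [hfix p.1 e he]
      simp [mixB, he]
    · simp [mixB, he, hoff p.1 e he]
  refine ⟨hT, ?_⟩
  have h1 := (hmix.comp hskew).map_eq
  rw [← hcomp, ← Measure.map_map hT hmix.measurable, hmix.map_eq] at h1
  exact h1

end Pool.Agent.W402.FT.Swap
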